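import Pool.Agent.H.MP_e51b07_al.Count

namespace Pool.Agent.H.MP_443384_al
open Finset MulAction Pool.Agent.H.MP_e51b07_al

/-- The transversal probability `|DT_G(H)| / |H|^(G:H)`. -/
noncomputable def P {G : Type} [Group G] (H : Subgroup G) : ℚ :=
  (Nat.card {T : Set G // (∀ x : G ⧸ H, ∃! t, t ∈ T ∧ QuotientGroup.mk t = x) ∧
    ∀ y : Quotient (QuotientGroup.rightRel H), ∃! t, t ∈ T ∧ Quotient.mk'' t = y} : ℚ) /
    (Nat.card H : ℚ) ^ H.index

def f (t : ℕ) : ℚ := (t.factorial : ℚ) / (t : ℚ) ^ t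

theorem P_pow {G : Type} [Group G] [Fintype G] (H : Subgroup G) (L : ℕ)
    (hL : ∀ g : G, (stabilizer H (g : G ⧸ H)).index ∣ L) : P H ^ (L * Nat.card H) =
      ∏ g : G, f (stabilizer H (g : G ⧸ H)).index ^ (L / (stabilizer H (g : G ⧸ H)).index) := by
  classical
  have := Fintype.ofFinite (G ⧸ H)
  have := Fintype.ofFinite (Quotient (QuotientGroup.rightRel H))
  have := Fintype.ofFinite (orbitRel.Quotient H (G ⧸ H))
  obtain ⟨py, hpy, hpy'⟩ : ∃ py : G → Quotient (QuotientGroup.rightRel H), py = Quotient.mk'' ∧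
      ∀ a b, py a = py b ↔ b * a⁻¹ ∈ H :=
    ⟨_, rfl, fun a b => Quotient.eq''.trans QuotientGroup.rightRel_apply⟩
  have hs : Function.Surjective py := hpy ▸ Quotient.mk''_surjective
  obtain ⟨dX, hX, hXs⟩ : ∃ dX : G ⧸ H → orbitRel.Quotient H (G ⧸ H),
      (∀ x x', dX x = dX x' ↔ x ∈ orbit H x') ∧ dX.Surjective :=
    ⟨Quotient.mk'', fun a b => Quotient.eq'', Quotient.mk''_surjective⟩
  obtain ⟨dY, hd⟩ : ∃ dY : Quotient (QuotientGroup.rightRel H) → orbitRel.Quotient H (G ⧸ H),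
      ∀ g : G, dX (g : G ⧸ H) = dY (py g) := by
    refine ⟨Quotient.lift (fun g : G => dX (g : G ⧸ H)) fun a b h => ?_, fun g => by rw [hpy]; rfl⟩
    refine ((hX _ _).2 ⟨⟨b * a⁻¹, QuotientGroup.rightRel_apply.1 h⟩, ?_⟩).symm
    change ((b * a⁻¹ * a : G) : G ⧸ H) = b
    simp
  have hc : 0 < Nat.card H := Nat.card_pos
  have hx : ∀ x : G ⧸ H, #{g : G | (g : G ⧸ H) = x} = Nat.card H := by
    intro x
    obtain ⟨a, rfl⟩ := QuotientGroup.mk_surjective x
    rw [Nat.card_eq_fintype_card, Fintype.card_subtype]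
    refine card_bij' (fun g _ => a⁻¹ * g) (fun g _ => a * g) ?_ ?_ (by simp) (by simp)
    · intro g hg
      simp only [mem_filter, mem_univ, true_and] at hg ⊢
      exact QuotientGroup.eq.1 hg.symm
    · intro g hg
      simp only [mem_filter, mem_univ, true_and] at hg ⊢
      exact QuotientGroup.mk_mul_of_mem a hg
  have hy : ∀ y, #{g : G | py g = y} = Nat.card H := by
    intro y
    obtain ⟨a, rfl⟩ := hs y
    rw [Nat.card_eq_fintype_card, Fintype.card_subtype]
    refine card_bij' (fun g _ => g * a⁻¹) (fun g _ => g * a) ?_ ?_ (by simp) (by simp)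
    · intro g hg
      simp only [mem_filter, mem_univ, true_and] at hg ⊢
      exact (hpy' _ _).1 hg.symm
    · intro g hg
      simp only [mem_filter, mem_univ, true_and] at hg ⊢
      exact ((hpy' _ _).2 (by simpa using hg)).symm
  have hYH : ∀ a b, dY (py a) = dY (py b) → ∃ h ∈ H, py (a * h) = py b := by
    intro a b h
    rw [← hd, ← hd, hX] at h
    obtain ⟨k, hk⟩ := h
    have hk' : ((k * b : G) : G ⧸ H) = a := hk
    exact ⟨_, QuotientGroup.eq.1 hk'.symm, (hpy' _ _).2 (by simp)⟩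
  have hr : ∀ a b h, py (a * h) = py (b * h) ↔ py a = py b := fun a b h => by simp [hpy', mul_assoc]
  have hm : ∀ (x : G ⧸ H) y y', dY y = dY y' →
      #{g : G | (g : G ⧸ H) = x ∧ py g = y} = #{g : G | (g : G ⧸ H) = x ∧ py g = y'} := by
    intro x y y' h
    obtain ⟨a, rfl⟩ := hs y
    obtain ⟨b, rfl⟩ := hs y'
    obtain ⟨u, hu, h2⟩ := hYH a b h
    refine card_bij' (fun g _ => g * u) (fun g _ => g * u⁻¹) ?_ ?_ (by simp) (by simp)
    · intro g hg
      simp only [mem_filter, mem_univ, true_and] at hg ⊢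
      exact ⟨(QuotientGroup.mk_mul_of_mem g hu).trans hg.1, h2 ▸ (hr _ _ _).2 hg.2⟩
    · intro g hg
      simp only [mem_filter, mem_univ, true_and] at hg ⊢
      exact ⟨(QuotientGroup.mk_mul_of_mem g (inv_mem hu)).trans hg.1,
        (hr _ _ u).1 (by simpa [h2] using hg.2)⟩
  have hf := formula QuotientGroup.mk py dX dY _ hd hc hx hy hm
  have hn : H.index = Fintype.card (G ⧸ H) := by rw [Subgroup.index, Nat.card_eq_fintype_card]
  have hst : ∀ x : G ⧸ H, (stabilizer H x).index = #{x' | dX x' = dX x} := by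
    intro x
    rw [index_stabilizer, ← Set.ncard_coe_finset]
    congr 1
    ext x'
    simp [hX]
  rw [P, ← hpy, hn, hf, ← prod_pow, ← prod_fiberwise univ fun g : G => dX (g : G ⧸ H)]
  refine prod_congr rfl fun ω _ => ?_
  obtain ⟨x, rfl⟩ := hXs ω
  obtain ⟨g₀, rfl⟩ := QuotientGroup.mk_surjective x
  have h0 := hL g₀
  rw [hst] at h0
  rw [prod_congr rfl (g := fun _ => f #{x' | dX x' = dX g₀} ^ (L / #{x' | dX x' = dX g₀}))
    fun g hg => by rw [hst, (mem_filter.1 hg).2], prod_const, fib_mul _ dX _ hx, ← pow_mul,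
    ← mul_assoc, Nat.div_mul_cancel h0, f]

@[ext] structure G where
  i : ZMod 4
  j : ZMod 4
  k : ZMod 4
  deriving DecidableEq

instance : Fintype G := Fintype.ofEquiv (ZMod 4 × ZMod 4 × ZMod 4)
  ⟨fun p => ⟨p.1, p.2.1, p.2.2⟩, fun g => (g.i, g.j, g.k), fun _ => rfl, fun _ => rfl⟩

def sw (k i j : ZMod 4) : ZMod 4 := i + k * k * (j - i + 2 * i * j)

instance : Mul G := ⟨fun a b => ⟨a.i + sw a.k b.i b.j + 2 * a.j * sw a.k b.i b.j,
  a.j + sw a.k b.j b.i + 2 * a.j * sw a.k b.i b.j, a.k + b.k⟩⟩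
instance : One G := ⟨⟨0, 0, 0⟩⟩
instance : Inv G := ⟨fun a => ⟨sw a.k (2 * a.i * a.j - a.i) (2 * a.i * a.j - a.j),
  sw a.k (2 * a.i * a.j - a.j) (2 * a.i * a.j - a.i), -a.k⟩⟩

theorem h1 : ∀ k l i j : ZMod 4, sw (k + l) i j = sw k (sw l i j) (sw l j i) := by decide +kernel
theorem h2 : ∀ k i j i' j' : ZMod 4, sw k (i + i' + 2 * j * i') (j + j' + 2 * j * i') =
    sw k i j + sw k i' j' + 2 * sw k j i * sw k i' j' := by decide +kernel
theorem h3 : ∀ k i j i' j' : ZMod 4, sw k (j + j' + 2 * j * i') (i + i' + 2 * j * i') =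
    sw k j i + sw k j' i' + 2 * sw k j i * sw k i' j' := by decide +kernel

instance : Group G := Group.ofLeftAxioms
  (fun a b c => by
    have h4 : (4 : ZMod 4) = 0 := rfl
    refine G.ext ?_ ?_ (add_assoc _ _ _)
    · change a.i + sw a.k b.i b.j + 2 * a.j * sw a.k b.i b.j + sw (a.k + b.k) c.i c.j +
        2 * (a.j + sw a.k b.j b.i + 2 * a.j * sw a.k b.i b.j) * sw (a.k + b.k) c.i c.j =
        a.i + sw a.k (b.i + _ + 2 * b.j * _) (b.j + _ + 2 * b.j * _) +
        2 * a.j * sw a.k (b.i + _ + 2 * b.j * _) (b.j + _ + 2 * b.j * _)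
      rw [h2, ← h1]
      linear_combination (a.j * sw a.k b.i b.j * sw (a.k + b.k) c.i c.j -
        a.j * sw a.k b.j b.i * sw (a.k + b.k) c.i c.j) * h4
    · change a.j + sw a.k b.j b.i + 2 * a.j * sw a.k b.i b.j + sw (a.k + b.k) c.j c.i +
        2 * (a.j + sw a.k b.j b.i + 2 * a.j * sw a.k b.i b.j) * sw (a.k + b.k) c.i c.j =
        a.j + sw a.k (b.j + _ + 2 * b.j * _) (b.i + _ + 2 * b.j * _) +
        2 * a.j * sw a.k (b.i + _ + 2 * b.j * _) (b.j + _ + 2 * b.j * _)
      rw [h2, h3, ← h1, ← h1]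
      linear_combination (a.j * sw a.k b.i b.j * sw (a.k + b.k) c.i c.j -
        a.j * sw a.k b.j b.i * sw (a.k + b.k) c.i c.j) * h4)
  (by decide +kernel) (by decide +kernel)

theorem card_G : Fintype.card G = 64 := by decide +kernel

def H0 : Subgroup G where
  carrier := {g | g.j = 0 ∧ g.k = 0}
  one_mem' := ⟨rfl, rfl⟩
  mul_mem' := fun {a b} => by revert a b; simp only [Set.mem_ofPred_eq]; decide +kernel
  inv_mem' := fun {a} => by revert a; simp only [Set.mem_ofPred_eq]; decide +kernel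

instance : DecidablePred (· ∈ H0) := fun g => inferInstanceAs (Decidable (g.j = 0 ∧ g.k = 0))

theorem card_H0 : Nat.card H0 = 4 := by
  rw [Nat.card_eq_fintype_card]; decide +kernel

theorem mem_stab {M : Type} [Group M] (H : Subgroup M) (g : M) (h : H) :
    h ∈ stabilizer H (g : M ⧸ H) ↔ g⁻¹ * h * g ∈ H := by
  rw [mem_stabilizer_iff, eq_comm]
  change (g : M ⧸ H) = ((h * g : M) : M ⧸ H) ↔ _
  rw [QuotientGroup.eq, mul_assoc]

theorem upper : P H0 ^ 16 ≤ (3 / 32) ^ 32 * (1 / 4) ^ 16 := by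
  have hL : ∀ g : G, (stabilizer H0 (g : G ⧸ H0)).index ∣ 4 := fun g =>
    card_H0 ▸ Subgroup.index_dvd_card _
  have := P_pow H0 4 hL
  rw [card_H0] at this
  rw [this]
  have e : ((3 / 32) ^ 32 * (1 / 4) ^ 16 : ℚ) = ∏ g : G, if g⁻¹ * ⟨2, 0, 0⟩ * g ∉ H0 then 3 / 32 else
      if g⁻¹ * ⟨1, 0, 0⟩ * g ∉ H0 then 1 / 4 else 1 := by
    rw [prod_ite, prod_ite, prod_const, prod_const, prod_const, one_pow, mul_one]
    congr 2
  rw [e]
  refine prod_le_prod (fun g _ => by unfold f; positivity) fun g _ => ?_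
  have h4 : ∀ t, t ∣ 4 → t = 1 ∨ t = 2 ∨ t = 4 := fun t h => by
    have := Nat.le_of_dvd (by norm_num) h
    interval_cases t <;> simp_all
  split_ifs with c1 c2
  · rcases h4 _ (hL g) with h | h | h <;> rw [h] <;> norm_num [f, Nat.factorial]
  · rcases h4 _ (hL g) with h | h | h
    · refine (c2 ((mem_stab H0 g ⟨⟨1, 0, 0⟩, rfl, rfl⟩).1 ?_)).elim
      rw [Subgroup.index_eq_one.1 h]; trivial
    all_goals rw [h]; norm_num [f, Nat.factorial]
  · have : stabilizer H0 (g : G ⧸ H0) = ⊥ := by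
      rw [eq_bot_iff]
      rintro ⟨h, hh⟩ h'
      rw [mem_stab] at h'
      refine Subtype.ext ?_
      revert c1 g h
      decide +kernel
    rw [this, Subgroup.index_bot, card_H0]
    norm_num [f, Nat.factorial]

theorem invol : ∀ t : G, t * t = 1 → #{g : G | g⁻¹ * t * g ≠ t} ≤ 32 := by decide +kernel

theorem lower (H : Subgroup G) (h : H.normalCore.relIndex H ≤ 2) : (1 / 2) ^ 8 ≤ P H := by
  classical
  have hL : ∀ g : G, (stabilizer H (g : G ⧸ H)).index ∣ 2 := fun g => by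
    have : H.normalCore.subgroupOf H ≤ stabilizer H (g : G ⧸ H) := fun x hx => by
      rw [mem_stab]
      simpa using hx g⁻¹
    have h0 : H.normalCore.relIndex H ≠ 0 := Subgroup.index_ne_zero_of_finite
    refine (Subgroup.index_dvd_of_le this).trans ?_
    change H.normalCore.relIndex H ∣ 2
    generalize H.normalCore.relIndex H = r at *
    interval_cases r <;> simp_all
  have e := P_pow H 2 hL
  rw [prod_congr rfl (g := fun g : G => if (stabilizer H (g : G ⧸ H)).index = 1 then 1 else 1 / 2)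
    fun g _ => by
      rcases (Nat.dvd_prime Nat.prime_two).1 (hL g) with h | h <;> rw [h] <;>
        norm_num [f, Nat.factorial], prod_ite, prod_const, prod_const, one_pow, one_mul] at e
  have hc : 0 < Nat.card H := Nat.card_pos
  have hb : #{g : G | ¬ (stabilizer H (g : G ⧸ H)).index = 1} ≤ 8 * (2 * Nat.card H) := by
    have hd : Nat.card H ∣ 2 ^ 6 := by
      have := H.card_subgroup_dvd_card
      rwa [Nat.card_eq_fintype_card (α := G), card_G] at this
    by_cases h4 : 4 ≤ Nat.card H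
    · exact (card_le_univ _).trans (by rw [card_G]; omega)
    by_cases h1 : Nat.card H = 1
    · rw [filter_eq_empty_iff.2 fun g _ => not_not.2 (Nat.dvd_one.1
        (h1 ▸ Subgroup.index_dvd_card _))]
      simp
    have h2 : Nat.card H = 2 := by
      have : Nat.card H ≠ 3 := fun h => by rw [h] at hd; omega
      omega
    obtain ⟨t, t1, t2⟩ := (Nat.card_eq_two_iff' (1 : H)).1 h2
    have t3 : t.1 * t.1 = 1 := by
      have := pow_card_eq_one' (x := t)
      rw [h2, pow_two] at this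
      exact congrArg Subtype.val this
    refine le_trans (card_le_card fun g hg => ?_) ((invol t t3).trans (by omega))
    simp only [mem_filter, mem_univ, true_and] at hg ⊢
    refine fun h => hg (Subgroup.index_eq_one.2 (eq_top_iff.2 fun x _ => ?_))
    by_cases hx : x = 1
    · exact hx ▸ one_mem _
    · rw [t2 x hx, mem_stab, h]; exact t.2
  refine le_of_pow_le_pow_left₀ (n := 2 * Nat.card H) (by omega) (by unfold P; positivity) ?_
  rw [e, ← pow_mul]
  exact pow_le_pow_of_le_one (by norm_num) (by norm_num) hb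

end Pool.Agent.H.MP_443384_al
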